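import Pool.Agent.H7.ME.Stmts

/-! # Row FNZ of the board `me17`: the theorem (copy of helper19's row FNZ of the board `hz`) -/

set_option autoImplicit false

open Finset

namespace Pool.ME7

open Pool.Agent.H23.KT Pool.Agent.H46.KW Pool.KQ Pool.GT7 Pool.GU7 Pool.HZ7 Pool.IA7

private lemma fnz_g8_sub {V : Type} [Fintype V] [DecidableEq V] {G : SimpleGraph V} {p r a : ℕ}
    (h : G8 G p r a) (S : Finset V) :
    G8 (G.comap (Subtype.val : {x : V // x ∉ S} → V)) p r a := by
  classical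
  constructor
  · intro T _ hT
    have h1 := h.cb (T.map (Function.Embedding.subtype _)) (subset_univ _) (by
      intro x hx y hy hxy
      rw [mem_coe, mem_map] at hx hy
      obtain ⟨x, hx, rfl⟩ := hx
      obtain ⟨y, hy, rfl⟩ := hy
      exact hT (mem_coe.2 hx) (mem_coe.2 hy) (fun h' => hxy (h' ▸ rfl)))
    rwa [card_map] at h1
  · intro v
    refine le_trans ?_ (h.deg v.1)
    rw [← card_map (Function.Embedding.subtype (fun x : V => x ∉ S))]
    refine card_le_card ?_
    intro y hy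
    rw [mem_map] at hy
    obtain ⟨y, hy, rfl⟩ := hy
    rw [mem_nb] at hy ⊢
    exact ⟨mem_univ _, hy.2⟩

private lemma fnz_kc_sub {V : Type} [Fintype V] [DecidableEq V] (G : SimpleGraph V)
    (S : Finset V) (j : ℕ) :
    kc (G.comap (Subtype.val : {x : V // x ∉ S} → V)) univ j = kc G (univ \ S) j := by
  classical
  rw [kc_map _ G (Function.Embedding.subtype (fun x : V => x ∉ S)) (fun x y => Iff.rfl)]
  congr 1
  ext y
  rw [mem_map, mem_sdiff]
  constructor
  · rintro ⟨x, _, rfl⟩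
    exact ⟨mem_univ _, x.2⟩
  · rintro ⟨_, hy⟩
    exact ⟨⟨y, hy⟩, mem_univ _, rfl⟩

private lemma fnz_kc_empty {V : Type} [Fintype V] [IsEmpty V] (G : SimpleGraph V) :
    kc G univ 3 = 0 := by
  have h1 : (univ : Finset V).powersetCard 3 = ∅ := by
    rw [powersetCard_eq_empty, card_univ, Fintype.card_eq_zero]
    norm_num
  unfold kc
  rw [h1]
  rfl

theorem prw_of_prz {p r : ℕ} (h : Pool.ME7.PrZ p r) : Pool.ME7.PrW p r := by
  have h1 := h.rb
  have h2 := h.rp
  exact ⟨by omega, by omega, h2⟩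

/-- The bound for all graphs. -/
theorem fnz_upper (h1 : Pool.ME7.BLKStmt) (h2 : Pool.ME7.MANWStmt) (p r : ℕ)
    (hp : Pool.ME7.PrZ p r) :
    ∃ a₀ : ℕ, ∀ a ≥ a₀, ∀ (n : ℕ) (V : Type) [Fintype V] [DecidableEq V] (G : SimpleGraph V),
      Fintype.card V = n → G8 G p r a →
      (kc G univ 3 : ℝ) * ((((p + 3) * a + r + a + 1 : ℕ)) : ℝ) ≤ kx p r a * Fintype.card V := by
  classical
  obtain ⟨C, hC, a₁, hB⟩ := h1 p r hp
  obtain ⟨a₂, hM⟩ := h2 p r (prw_of_prz hp) C hC
  refine ⟨max a₁ a₂, ?_⟩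
  intro a ha n
  have ha1 : a₁ ≤ a := le_trans (le_max_left _ _) ha
  have ha2 : a₂ ≤ a := le_trans (le_max_right _ _) ha
  induction n using Nat.strong_induction_on with
  | _ n ih =>
    intro V _ _ G hn hG
    by_contra hlt
    push Not at hlt
    have hV : Nonempty V := by
      by_contra hne
      rw [not_nonempty_iff] at hne
      have h3 : kc G univ 3 = 0 := fnz_kc_empty G
      rw [h3, Fintype.card_eq_zero] at hlt
      simp at hlt
    obtain ⟨Q, hQ⟩ := hB a ha1 G hG hV hlt.le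
    have hm := hM a ha2 G Q hG hQ
    have hne : (un Q).Nonempty := by
      obtain ⟨v, hv, _⟩ := hQ.full 0
      exact ⟨v, mem_biUnion.2 ⟨0, mem_univ _, hv⟩⟩
    have hcard : Fintype.card {x : V // x ∉ un Q} + (un Q).card = Fintype.card V := by
      have h4 : Fintype.card {x : V // x ∉ un Q} = (univ \ un Q).card := by
        rw [Fintype.card_subtype]
        congr 1
        ext y
        simp
      rw [h4, card_sdiff_add_card_eq_card (subset_univ _), card_univ]
    have hpos : 0 < (un Q).card := hne.card_pos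
    have h5 := ih (Fintype.card {x : V // x ∉ un Q}) (by omega) {x : V // x ∉ un Q}
      (G.comap (Subtype.val : {x : V // x ∉ un Q} → V)) rfl (fnz_g8_sub hG (un Q))
    rw [fnz_kc_sub] at h5
    have h6 : (Fintype.card V : ℝ) = (Fintype.card {x : V // x ∉ un Q} : ℝ) + ((un Q).card : ℝ) := by
      exact_mod_cast hcard.symm
    rw [h6] at hlt
    nlinarith [hlt, hm, h5]

theorem fnz_thm (h1 : Pool.ME7.BLKStmt) (h2 : Pool.ME7.MANWStmt) (h3 : Pool.ME7.RFGWStmt)
    (_h4 : Pool.ME7.NAVWStmt) : Pool.ME7.FNZStmt := by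
  classical
  intro p r hp
  obtain ⟨a₀, hU⟩ := fnz_upper h1 h2 p r hp
  refine ⟨max a₀ 1, ?_⟩
  intro a ha
  have ha0 : a₀ ≤ a := le_trans (le_max_left _ _) ha
  have ha1 : 1 ≤ a := le_trans (le_max_right _ _) ha
  have key : ∀ (m : ℕ) (H : SimpleGraph (Fin m)),
      (∀ v, (H.neighborSet v).ncard ≤ (p + 3) * a + r) → H.CliqueFree (p + 5) →
      ({s : Finset (Fin m) | H.IsNClique 3 s}.ncard : ℝ) *
        ((((p + 3) * a + r + a + 1 : ℕ)) : ℝ) ≤ kx p r a * m := by
    intro m H hdeg hcf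
    have hdeg' : ∀ v, (nb H univ v).card ≤ (p + 3) * a + r := by
      intro v
      have h1 : ((nb H univ v : Finset (Fin m)) : Set (Fin m)) = H.neighborSet v := by
        ext w
        rw [mem_coe, mem_nb, SimpleGraph.mem_neighborSet]
        simp
      rw [← Set.ncard_coe_finset, h1]
      exact hdeg v
    have hCB : CB H (univ : Finset (Fin m)) (p + 4) := by
      intro S _ hS
      by_contra hlt
      push Not at hlt
      obtain ⟨S', hS', hc'⟩ := exists_subset_card_eq (show p + 5 ≤ S.card by omega)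
      exact hcf S' ⟨hS.subset (by
        intro y hy
        exact mem_coe.2 (hS' (mem_coe.1 hy))), hc'⟩
    have h := hU a ha0 m (Fin m) H (Fintype.card_fin m) ⟨hCB, hdeg'⟩
    rw [Fintype.card_fin] at h
    rw [ncard_eq_kc]
    exact h
  obtain ⟨R, hR1, hR2, hR3⟩ := h3 p r a (prw_of_prz hp) ha1
  have hpos : (0 : ℝ) < ((((p + 3) * a + r + a + 1 : ℕ)) : ℝ) := by
    exact_mod_cast Nat.succ_pos _
  have hR4 : ({s : Finset (Fin ((p + 3) * a + r + a + 1)) | R.IsNClique 3 s}.ncard : ℝ) =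
      kx p r a := by
    refine le_antisymm ?_ hR3
    exact le_of_mul_le_mul_right (key _ R hR1 hR2) hpos
  refine ⟨R, hR1, hR2, hR4, ?_⟩
  intro m H hdeg hcf
  have h := key m H hdeg hcf
  rw [← hR4] at h
  exact_mod_cast h

end Pool.ME7
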